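import Pool.Agent.Helper75.KS.GoalsB

/-! # KS, packet CNT: the number of elements with mean position in an interval -/

set_option autoImplicit false

namespace Pool.Agent.Helper15.KS

open MeasureTheory Filter Topology Finset
open Pool.Agent.Helper44.KS
open Pool.Agent.Helper89.GP (LX po Ex Pr hh)
open Pool.Agent.Helper75.KS

theorem card_int_le (s : Finset ℤ) (a L : ℝ) (hL : 0 ≤ L)
    (h : ∀ k ∈ s, a ≤ (k : ℝ) ∧ (k : ℝ) < a + L) : (s.card : ℝ) ≤ L + 1 := by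
  have h1 : s ⊆ Finset.Ico ⌈a⌉ ⌈a + L⌉ := by
    intro k hk
    rw [Finset.mem_Ico]
    refine ⟨Int.ceil_le.2 (h k hk).1, ?_⟩
    exact Int.lt_ceil.2 (h k hk).2
  have h2 := Finset.card_le_card h1
  rw [Int.card_Ico] at h2
  have h3 : ⌈a⌉ ≤ ⌈a + L⌉ := Int.ceil_mono (by linarith)
  have h4 : (((⌈a + L⌉ - ⌈a⌉).toNat : ℕ) : ℝ) = (⌈a + L⌉ : ℝ) - (⌈a⌉ : ℝ) := by
    have h5 : (((⌈a + L⌉ - ⌈a⌉).toNat : ℕ) : ℤ) = ⌈a + L⌉ - ⌈a⌉ :=
      Int.toNat_of_nonneg (sub_nonneg.2 h3)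
    have h6 : ((((⌈a + L⌉ - ⌈a⌉).toNat : ℕ) : ℤ) : ℝ) = ((⌈a + L⌉ - ⌈a⌉ : ℤ) : ℝ) :=
      congrArg (fun t : ℤ => (t : ℝ)) h5
    rw [Int.cast_natCast, Int.cast_sub] at h6
    exact h6
  have h5 : (s.card : ℝ) ≤ (((⌈a + L⌉ - ⌈a⌉).toNat : ℕ) : ℝ) := by exact_mod_cast h2
  have h6 := Int.ceil_lt_add_one (a + L)
  have h7 := Int.le_ceil a
  linarith

/-- CNT. -/
theorem cnt : CntStmt := by
  intro n R S u hne hS hdev
  classical
  set Z := univ.filter fun z : Fin n => u ≤ hh R z ∧ hh R z < u + S with hZ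
  have hS0 : 0 < S := by linarith
  -- pointwise
  have h1 : ∀ σ ∈ LX R, ∑ z ∈ Z, (1 - (4 * S)⁻¹ * |(po σ z : ℝ) - hh R z|) ≤ 9 * S + 1 := by
    intro σ _
    have h2 : ∑ z ∈ Z, (1 - (4 * S)⁻¹ * |(po σ z : ℝ) - hh R z|) ≤
        ∑ z ∈ Z, if |(po σ z : ℝ) - hh R z| ≤ 4 * S then (1 : ℝ) else 0 := by
      refine Finset.sum_le_sum fun z _ => ?_
      have h3 : 0 ≤ (4 * S)⁻¹ * |(po σ z : ℝ) - hh R z| := by positivity
      split_ifs with h4
      · linarith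
      · push Not at h4
        have h5 : 1 ≤ (4 * S)⁻¹ * |(po σ z : ℝ) - hh R z| := by
          rw [inv_mul_eq_div, le_div_iff₀ (by positivity)]
          linarith
        linarith
    refine h2.trans ?_
    rw [Finset.sum_boole]
    set Gd := Z.filter fun z => |(po σ z : ℝ) - hh R z| ≤ 4 * S with hGd
    have h3 : (Gd.image fun z => ((po σ z : ℕ) : ℤ)).card = Gd.card := by
      refine Finset.card_image_of_injOn ?_
      intro z _ z' _ h
      have h4 : ((po σ z : ℕ) : ℤ) = ((po σ z' : ℕ) : ℤ) := h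
      exact Pool.Agent.Helper89.GP.po_inj.1 (by exact_mod_cast h4)
    rw [← h3]
    have h4 := card_int_le (Gd.image fun z => ((po σ z : ℕ) : ℤ)) (u - 4 * S) (9 * S)
      (by linarith) (by
        intro k hk
        obtain ⟨z, hz, rfl⟩ := Finset.mem_image.1 hk
        rw [hGd, Finset.mem_filter, hZ, Finset.mem_filter] at hz
        obtain ⟨⟨-, h5, h6⟩, h7⟩ := hz
        have h8 := abs_le.1 h7
        push_cast
        constructor <;> linarith)
    exact h4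
  have h2 := Pool.Agent.Helper89.GP.Ex_mono (R := R) (Y := fun _ => 9 * S + 1) h1
  rw [Pool.Agent.Helper89.GP.Ex_const hne, Pool.Agent.Helper89.GP.Ex_sum] at h2
  have h3 : ∀ z ∈ Z, (3 : ℝ) / 4 ≤ Ex R fun σ => 1 - (4 * S)⁻¹ * |(po σ z : ℝ) - hh R z| := by
    intro z _
    rw [Pool.Agent.Helper89.GP.Ex_sub, Pool.Agent.Helper89.GP.Ex_const hne,
      Pool.Agent.Helper89.GP.Ex_mul]
    have h4 := hdev z
    rw [dev] at h4
    have h5 : (4 * S)⁻¹ * (Ex R fun σ => |(po σ z : ℝ) - hh R z|) ≤ (4 * S)⁻¹ * S :=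
      mul_le_mul_of_nonneg_left h4 (by positivity)
    have h6 : (4 * S)⁻¹ * S = 1 / 4 := by
      field_simp
    linarith
  have h4 := Finset.sum_le_sum h3
  rw [Finset.sum_const, nsmul_eq_mul] at h4
  have h5 := h4.trans h2
  linarith

end Pool.Agent.Helper15.KS
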