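import Pool.Agent.Helper42.KS.Goals

set_option autoImplicit false

namespace Pool.Agent.Helper42.KS.PkRS

open MeasureTheory

lemma ee_add (s t : ℝ) : ee (s + t) = ee s * ee t := by
  unfold ee
  rw [← Complex.exp_add]
  congr 1
  push_cast
  ring

lemma ee_int (n : ℤ) : ee (n : ℝ) = 1 := by
  unfold ee
  rw [Complex.exp_eq_one_iff]
  exact ⟨n, by push_cast; ring⟩

lemma norm_ee (t : ℝ) : ‖ee t‖ = 1 := by
  unfold ee
  exact Complex.norm_exp_ofReal_mul_I _

lemma ee_zero : ee 0 = 1 := by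
  have := ee_int 0
  simpa using this

lemma ee_cont : Continuous ee := by
  unfold ee
  fun_prop

/-- Lipschitz bound -/
lemma ee_sub_le (s t : ℝ) : ‖ee s - ee t‖ ≤ 2 * Real.pi * |s - t| := by
  have h1 : ee s - ee t = ee t * (ee (s - t) - 1) := by
    rw [mul_sub, ← ee_add]
    rw [mul_one]
    congr 2
    ring
  rw [h1, norm_mul, norm_ee, one_mul]
  have h2 : ‖ee (s - t) - 1‖ ≤ |2 * Real.pi * (s - t)| := by
    unfold ee
    rw [mul_comm _ Complex.I]
    have := Real.norm_exp_I_mul_ofReal_sub_one_le (x := 2 * Real.pi * (s - t))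
    simpa using this
  refine h2.trans (le_of_eq ?_)
  rw [abs_mul, abs_of_pos (by positivity)]

lemma ee_sub_one_ge (t : ℝ) (ht : |t| ≤ 1 / 2) : 4 * |t| ≤ ‖1 - ee t‖ := by
  have h0 : ‖1 - ee t‖ = ‖ee t - 1‖ := norm_sub_rev _ _
  rw [h0]
  unfold ee
  rw [mul_comm _ Complex.I, Complex.norm_exp_I_mul_ofReal_sub_one]
  have h1 : 2 * Real.sin (2 * Real.pi * t / 2) = 2 * Real.sin (Real.pi * t) := by
    congr 2; ring
  rw [h1, norm_mul]
  have h2 : ‖(2:ℝ)‖ = 2 := by norm_num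
  rw [h2]
  have h3 : 2 * |t| ≤ ‖Real.sin (Real.pi * t)‖ := by
    have h4 : ‖Real.sin (Real.pi * t)‖ = Real.sin (Real.pi * |t|) := by
      rw [Real.norm_eq_abs]
      rcases le_total 0 t with h | h
      · rw [abs_of_nonneg h, abs_of_nonneg]
        apply Real.sin_nonneg_of_nonneg_of_le_pi
        · positivity
        · rw [abs_of_nonneg h] at ht
          nlinarith [Real.pi_pos]
      · rw [abs_of_nonpos h]
        have h5 : Real.sin (Real.pi * t) = - Real.sin (Real.pi * -t) := by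
          rw [← Real.sin_neg]; congr 1; ring
        rw [h5, abs_neg, abs_of_nonneg]
        apply Real.sin_nonneg_of_nonneg_of_le_pi
        · have : 0 ≤ -t := by linarith
          positivity
        · rw [abs_of_nonpos h] at ht
          nlinarith [Real.pi_pos]
    rw [h4]
    have h6 := Real.mul_le_sin (x := Real.pi * |t|) (by positivity) (by nlinarith [Real.pi_pos])
    refine le_trans (le_of_eq ?_) h6
    field_simp
  linarith

/-- the arithmetic part -/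
noncomputable def ww (k : ℕ) (a : ℤ) (q : ℕ) (b : ℤ) (y : ℕ) : ℂ :=
  ee ((a * (y : ℝ) ^ k + b * y) / q)

lemma norm_ww (k : ℕ) (a : ℤ) (q : ℕ) (b : ℤ) (y : ℕ) : ‖ww k a q b y‖ = 1 := norm_ee _

lemma ww_add (k : ℕ) (a : ℤ) (q : ℕ) (b : ℤ) (hq : 1 ≤ q) (m y : ℕ) :
    ww k a q b (q * m + y) = ww k a q b y := by
  unfold ww
  obtain ⟨e, he⟩ : (q : ℤ) ∣ (a * (((q * m + y : ℕ) : ℤ)) ^ k + b * ((q * m + y : ℕ) : ℤ)) -
      (a * (y : ℤ) ^ k + b * (y : ℤ)) := by
    have h1 : ((q * m + y : ℕ) : ℤ) ≡ (y : ℤ) [ZMOD q] := by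
      apply (Int.modEq_iff_dvd).2
      push_cast
      exact ⟨-m, by ring⟩
    have h2 : (a * (((q * m + y : ℕ) : ℤ)) ^ k + b * ((q * m + y : ℕ) : ℤ)) ≡
        (a * (y : ℤ) ^ k + b * (y : ℤ)) [ZMOD q] :=
      Int.ModEq.add ((h1.pow k).mul_left a) (h1.mul_left b)
    exact h2.symm.dvd
  have h3 : (a * (((q * m + y : ℕ) : ℝ)) ^ k + b * ((q * m + y : ℕ) : ℝ)) / q =
      (a * (y : ℝ) ^ k + b * y) / q + (e : ℝ) := by
    have hq0 : (q : ℝ) ≠ 0 := by positivity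
    field_simp
    have := congrArg (fun z : ℤ => (z : ℝ)) he
    push_cast at this ⊢
    linarith
  rw [h3, ee_add, ee_int, mul_one]

lemma GG_eq (k : ℕ) (a : ℤ) (q : ℕ) (b : ℤ) :
    GG k a q b = (q : ℂ)⁻¹ * ∑ y ∈ Finset.range q, ww k a q b y := rfl

lemma norm_GG (k : ℕ) (a : ℤ) (q : ℕ) (b : ℤ) (hq : 1 ≤ q) : ‖GG k a q b‖ ≤ 1 := by
  rw [GG_eq, norm_mul, norm_inv, Complex.norm_natCast]
  have h1 : ‖∑ y ∈ Finset.range q, ww k a q b y‖ ≤ q := by
    refine (norm_sum_le _ _).trans ?_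
    simp [norm_ww]
  have hq0 : (0 : ℝ) < q := by positivity
  rw [inv_mul_le_iff₀ hq0]
  simpa using h1

lemma pow_lip (k : ℕ) (M x y : ℝ) (hx : |x| ≤ M) (hy : |y| ≤ M) :
    |x ^ k - y ^ k| ≤ k * M ^ (k - 1) * |x - y| := by
  have h := abs_pow_sub_pow_le x y k
  refine h.trans ?_
  have h1 : max |x| |y| ^ (k - 1) ≤ M ^ (k - 1) :=
    pow_le_pow_left₀ (le_max_of_le_left (abs_nonneg x)) (max_le hx hy) _
  have h2 : |x - y| * k * max |x| |y| ^ (k - 1) ≤ |x - y| * k * M ^ (k - 1) :=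
    mul_le_mul_of_nonneg_left h1 (by positivity)
  linarith [h2]

noncomputable def ph (k : ℕ) (β θ u : ℝ) : ℂ := ee (β * u ^ k + θ * u)

lemma norm_ph (k : ℕ) (β θ u : ℝ) : ‖ph k β θ u‖ = 1 := norm_ee _

lemma ph_cont (k : ℕ) (β θ : ℝ) : Continuous (ph k β θ) := by
  unfold ph
  exact ee_cont.comp (by fun_prop)

lemma ph_lip (k : ℕ) (β θ M x y : ℝ) (hx : |x| ≤ M) (hy : |y| ≤ M) :
    ‖ph k β θ x - ph k β θ y‖ ≤ 2 * Real.pi * (k * |β| * M ^ (k - 1) + |θ|) * |x - y| := by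
  unfold ph
  refine (ee_sub_le _ _).trans ?_
  have h1 : |β * x ^ k + θ * x - (β * y ^ k + θ * y)| ≤
      (k * |β| * M ^ (k - 1) + |θ|) * |x - y| := by
    have h2 : β * x ^ k + θ * x - (β * y ^ k + θ * y) = β * (x ^ k - y ^ k) + θ * (x - y) := by ring
    rw [h2]
    refine (abs_add_le _ _).trans ?_
    rw [abs_mul, abs_mul]
    have h3 := mul_le_mul_of_nonneg_left (pow_lip k M x y hx hy) (abs_nonneg β)
    nlinarith [h3]
  have h4 : (0 : ℝ) ≤ 2 * Real.pi := by positivity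
  calc 2 * Real.pi * |β * x ^ k + θ * x - (β * y ^ k + θ * y)|
      ≤ 2 * Real.pi * ((k * |β| * M ^ (k - 1) + |θ|) * |x - y|) :=
        mul_le_mul_of_nonneg_left h1 h4
    _ = _ := by ring

/-- one block -/
lemma block (k : ℕ) (a : ℤ) (q : ℕ) (b : ℤ) (hq : 1 ≤ q) (β θ M : ℝ) (m : ℕ)
    (hm : (q : ℝ) * m + q ≤ M) :
    ‖∑ c ∈ Finset.range q, ww k a q b (q * m + c) * ph k β θ ((q * m + c : ℕ) : ℝ) -
      GG k a q b * ∫ u in ((q : ℝ) * m)..((q : ℝ) * m + q), ph k β θ u‖ ≤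
      q * q * (2 * Real.pi * (k * |β| * M ^ (k - 1) + |θ|)) := by
  have hq0 : (0 : ℝ) < q := by positivity
  set K := 2 * Real.pi * (k * |β| * M ^ (k - 1) + |θ|) with hK
  set J := ∫ u in ((q : ℝ) * m)..((q : ℝ) * m + q), ph k β θ u with hJ
  have h1 : ∑ c ∈ Finset.range q, ww k a q b (q * m + c) * ph k β θ ((q * m + c : ℕ) : ℝ) -
      GG k a q b * J = ∑ c ∈ Finset.range q, ww k a q b c *
        (ph k β θ ((q * m + c : ℕ) : ℝ) - (q : ℂ)⁻¹ * J) := by
    rw [GG_eq]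
    simp only [mul_sub, Finset.sum_sub_distrib]
    congr 1
    · apply Finset.sum_congr rfl
      intro c _
      rw [ww_add k a q b hq]
    · rw [← Finset.sum_mul]
      ring
  rw [h1]
  have h2 : ∀ c ∈ Finset.range q, ‖ww k a q b c *
        (ph k β θ ((q * m + c : ℕ) : ℝ) - (q : ℂ)⁻¹ * J)‖ ≤ q * K := by
    intro c hc
    rw [norm_mul, norm_ww, one_mul]
    have hc' : (c : ℝ) < q := by exact_mod_cast Finset.mem_range.1 hc
    have hc0 : (0 : ℝ) ≤ c := by positivity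
    have hm0 : (0 : ℝ) ≤ (q : ℝ) * m := by positivity
    have h3 : ph k β θ ((q * m + c : ℕ) : ℝ) - (q : ℂ)⁻¹ * J =
        (q : ℂ)⁻¹ * ∫ u in ((q : ℝ) * m)..((q : ℝ) * m + q),
          (ph k β θ ((q * m + c : ℕ) : ℝ) - ph k β θ u) := by
      rw [intervalIntegral.integral_sub]
      · rw [intervalIntegral.integral_const, ← hJ, mul_sub]
        congr 1
        rw [add_sub_cancel_left, Complex.real_smul, Complex.ofReal_natCast]
        have : (q : ℂ) ≠ 0 := by exact_mod_cast hq0.ne'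
        field_simp
      · exact intervalIntegrable_const
      · exact (ph_cont k β θ).intervalIntegrable _ _
    rw [h3, norm_mul, norm_inv, Complex.norm_natCast]
    have h4 : ‖∫ u in ((q : ℝ) * m)..((q : ℝ) * m + q),
          (ph k β θ ((q * m + c : ℕ) : ℝ) - ph k β θ u)‖ ≤ (K * q) * |(q : ℝ) * m + q - q * m| := by
      apply intervalIntegral.norm_integral_le_of_norm_le_const
      intro u hu
      rw [Set.uIoc_of_le (by linarith)] at hu
      have h5 := ph_lip k β θ M ((q * m + c : ℕ) : ℝ) u (by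
        push_cast
        rw [abs_of_nonneg (by linarith)]
        linarith) (by
        rw [abs_of_nonneg (by linarith [hu.1])]
        linarith [hu.2])
      refine h5.trans ?_
      rw [← hK]
      have hK0 : 0 ≤ K := by
        have hM : 0 ≤ M := by linarith
        positivity
      apply mul_le_mul_of_nonneg_left _ hK0
      push_cast
      rw [abs_le]
      constructor <;> linarith [hu.1, hu.2]
    rw [inv_mul_le_iff₀ hq0]
    refine h4.trans (le_of_eq ?_)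
    rw [add_sub_cancel_left, abs_of_pos hq0]
    ring
  refine (norm_sum_le _ _).trans ?_
  refine (Finset.sum_le_card_nsmul _ _ _ h2).trans (le_of_eq ?_)
  rw [Finset.card_range, nsmul_eq_mul]
  ring

lemma blocks (k : ℕ) (a : ℤ) (q : ℕ) (b : ℤ) (hq : 1 ≤ q) (β θ M : ℝ) (m : ℕ)
    (hm : (q : ℝ) * m ≤ M) :
    ‖∑ y ∈ Finset.range (q * m), ww k a q b y * ph k β θ (y : ℝ) -
      GG k a q b * ∫ u in (0 : ℝ)..((q : ℝ) * m), ph k β θ u‖ ≤
      m * (q * q * (2 * Real.pi * (k * |β| * M ^ (k - 1) + |θ|))) := by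
  induction m with
  | zero => simp
  | succ m ih =>
    have hq0 : (0 : ℝ) < q := by positivity
    have hm' : (q : ℝ) * m + q ≤ M := by
      push_cast at hm
      linarith
    have ih' := ih (by linarith)
    have hb := block k a q b hq β θ M m hm'
    have e1 : ((q : ℝ) * ((m + 1 : ℕ) : ℝ)) = (q : ℝ) * m + q := by push_cast; ring
    rw [e1]
    have e2 : ∫ u in (0 : ℝ)..((q : ℝ) * m + q), ph k β θ u =
        (∫ u in (0 : ℝ)..((q : ℝ) * m), ph k β θ u) +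
          ∫ u in ((q : ℝ) * m)..((q : ℝ) * m + q), ph k β θ u :=
      (intervalIntegral.integral_add_adjacent_intervals
        ((ph_cont k β θ).intervalIntegrable _ _) ((ph_cont k β θ).intervalIntegrable _ _)).symm
    rw [e2, Nat.mul_succ, Finset.sum_range_add]
    have e3 : ∀ A B C D g : ℂ, A + B - g * (C + D) = (A - g * C) + (B - g * D) := by
      intro A B C D g; ring
    rw [e3]
    refine (norm_add_le _ _).trans ?_
    refine (add_le_add ih' hb).trans (le_of_eq ?_)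
    push_cast
    ring

lemma fS_eq (k R q : ℕ) (a b : ℤ) (β θ : ℝ) :
    fS k R (a / q + β) (b / q + θ) =
      ∑ y ∈ Finset.range R, ww k a q b y * ph k β θ (y : ℝ) := by
  unfold fS
  apply Finset.sum_congr rfl
  intro y _
  unfold ww ph
  rw [← ee_add]
  congr 1
  ring

/-- case 1 -/
lemma case1 (k R q : ℕ) (a b : ℤ) (hq : 1 ≤ q) (β θ : ℝ) :
    ‖∑ y ∈ Finset.range R, ww k a q b y * ph k β θ (y : ℝ) -
      GG k a q b * ∫ u in (0 : ℝ)..(R : ℝ), ph k β θ u‖ ≤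
      R * (q * (2 * Real.pi * (k * |β| * (R : ℝ) ^ (k - 1) + |θ|))) + 2 * q := by
  have hq0 : (0 : ℝ) < q := by positivity
  set m := R / q with hm
  have h1 : q * m ≤ R := Nat.mul_div_le R q
  have h2 : R < q * m + q := by
    have := Nat.lt_mul_div_succ R (show 0 < q by omega)
    rw [← hm] at this
    rw [Nat.mul_add, Nat.mul_one] at this
    exact this
  obtain ⟨r, hr⟩ : ∃ r, R = q * m + r := ⟨R - q * m, by omega⟩
  have hrq : r ≤ q := by omega
  have h3 := blocks k a q b hq β θ R m (by exact_mod_cast h1)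
  set K := 2 * Real.pi * (k * |β| * (R : ℝ) ^ (k - 1) + |θ|) with hK
  have hK0 : 0 ≤ K := by positivity
  have e1 : ∑ y ∈ Finset.range R, ww k a q b y * ph k β θ (y : ℝ) =
      ∑ y ∈ Finset.range (q * m), ww k a q b y * ph k β θ (y : ℝ) +
        ∑ y ∈ Finset.range r, ww k a q b (q * m + y) * ph k β θ ((q * m + y : ℕ) : ℝ) := by
    conv_lhs => rw [hr]
    rw [Finset.sum_range_add]
  have e2 : ∫ u in (0 : ℝ)..(R : ℝ), ph k β θ u =
      (∫ u in (0 : ℝ)..((q : ℝ) * m), ph k β θ u) +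
        ∫ u in ((q : ℝ) * m)..(R : ℝ), ph k β θ u :=
      (intervalIntegral.integral_add_adjacent_intervals
        ((ph_cont k β θ).intervalIntegrable _ _) ((ph_cont k β θ).intervalIntegrable _ _)).symm
  rw [e1, e2]
  have e3 : ∀ A B C D g : ℂ, A + B - g * (C + D) = (A - g * C) + (B - g * D) := by
    intro A B C D g; ring
  rw [e3]
  have hR : (R : ℝ) = (q : ℝ) * m + r := by exact_mod_cast hr
  have h4 : ‖∑ y ∈ Finset.range r, ww k a q b (q * m + y) * ph k β θ ((q * m + y : ℕ) : ℝ)‖ ≤ q := by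
    refine (norm_sum_le _ _).trans ?_
    simp only [norm_mul, norm_ww, norm_ph, mul_one, Finset.sum_const, Finset.card_range,
      nsmul_eq_mul]
    exact_mod_cast hrq
  have h5 : ‖GG k a q b * ∫ u in ((q : ℝ) * m)..(R : ℝ), ph k β θ u‖ ≤ q := by
    rw [norm_mul]
    have h6 : ‖∫ u in ((q : ℝ) * m)..(R : ℝ), ph k β θ u‖ ≤ 1 * |(R : ℝ) - (q : ℝ) * m| := by
      apply intervalIntegral.norm_integral_le_of_norm_le_const
      intro u _
      rw [norm_ph]
    have h7 : |(R : ℝ) - (q : ℝ) * m| ≤ q := by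
      rw [hR, add_sub_cancel_left, abs_of_nonneg (by positivity)]
      exact_mod_cast hrq
    calc ‖GG k a q b‖ * ‖∫ u in ((q : ℝ) * m)..(R : ℝ), ph k β θ u‖ ≤ 1 * (1 * q) := by
          apply mul_le_mul (norm_GG k a q b hq) (h6.trans _) (norm_nonneg _) zero_le_one
          linarith
      _ = q := by ring
  have h8 : (m : ℝ) * (q * q * K) ≤ R * (q * K) := by
    have h9 : (q : ℝ) * m ≤ R := by exact_mod_cast h1
    have h10 : 0 ≤ q * K := by positivity
    calc (m : ℝ) * (q * q * K) = (q * m) * (q * K) := by ring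
      _ ≤ R * (q * K) := mul_le_mul_of_nonneg_right h9 h10
  calc ‖_ + _‖ ≤ ‖_‖ + ‖_‖ := norm_add_le _ _
    _ ≤ (m : ℝ) * (q * q * K) + (q + q) := by
        apply add_le_add h3
        exact (norm_sub_le _ _).trans (add_le_add h4 h5)
    _ ≤ _ := by linarith

/-- case 2 -/
lemma case2 (k R q : ℕ) (a b : ℤ) (hq : 1 ≤ q) (hqR : q ≤ R) (β θ : ℝ) :
    ‖1 - ee (q * θ)‖ * ‖∑ y ∈ Finset.range R, ww k a q b y * ph k β θ (y : ℝ)‖ ≤
      2 * q + R * (2 * Real.pi * (k * |β| * (2 * R : ℝ) ^ (k - 1)) * q) := by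
  set G : ℕ → ℂ := fun y => ww k a q b y * ph k β θ (y : ℝ) with hG
  have hGn : ∀ y, ‖G y‖ = 1 := by
    intro y
    rw [hG]
    simp only [norm_mul, norm_ww, norm_ph, mul_one]
  set S := ∑ y ∈ Finset.range R, G y with hS
  have hsplit : ∑ y ∈ Finset.range q, G y + ∑ y ∈ Finset.range R, G (q + y) =
      S + ∑ y ∈ Finset.range q, G (R + y) := by
    rw [← Finset.sum_range_add, hS, ← Finset.sum_range_add, Nat.add_comm]
  have hD : ∀ y ∈ Finset.range R, ‖G (q + y) - ee (q * θ) * G y‖ ≤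
      2 * Real.pi * (k * |β| * (2 * R : ℝ) ^ (k - 1)) * q := by
    intro y hy
    have hyR : (y : ℝ) ≤ R := by exact_mod_cast (Finset.mem_range.1 hy).le
    have hqR' : (q : ℝ) ≤ R := by exact_mod_cast hqR
    have hy0 : (0 : ℝ) ≤ y := by positivity
    have hq0 : (0 : ℝ) ≤ q := by positivity
    have e1 : G (q + y) - ee (q * θ) * G y =
        ww k a q b y * ee (q * θ) * ee (θ * y) *
          (ph k β 0 ((q : ℝ) + y) - ph k β 0 (y : ℝ)) := by
      rw [hG]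
      simp only
      have e2 : ww k a q b (q + y) = ww k a q b y := by
        have := ww_add k a q b hq 1 y
        rwa [Nat.mul_one] at this
      rw [e2]
      have e3 : ph k β θ ((q + y : ℕ) : ℝ) = ph k β 0 ((q : ℝ) + y) * (ee (q * θ) * ee (θ * y)) := by
        unfold ph
        rw [← ee_add, ← ee_add]
        congr 1
        push_cast
        ring
      have e4 : ph k β θ (y : ℝ) = ph k β 0 (y : ℝ) * ee (θ * y) := by
        unfold ph
        rw [← ee_add]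
        congr 1
        ring
      rw [e3, e4]
      ring
    rw [e1, norm_mul, norm_mul, norm_mul, norm_ww, norm_ee, norm_ee, one_mul, one_mul, one_mul]
    refine (ph_lip k β 0 (2 * R) ((q : ℝ) + y) y ?_ ?_).trans ?_
    · rw [abs_of_nonneg (by positivity)]; linarith
    · rw [abs_of_nonneg (by positivity)]; linarith
    · rw [add_sub_cancel_right, abs_of_nonneg hq0, abs_zero, add_zero]
  have hmain : (1 - ee (q * θ)) * S = ∑ y ∈ Finset.range q, G y -
      ∑ y ∈ Finset.range q, G (R + y) + ∑ y ∈ Finset.range R, (G (q + y) - ee (q * θ) * G y) := by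
    rw [Finset.sum_sub_distrib, ← Finset.mul_sum, ← hS]
    linear_combination (-1 : ℂ) * hsplit
  rw [← norm_mul, hmain]
  have h1 : ‖∑ y ∈ Finset.range q, G y‖ ≤ q := by
    refine (norm_sum_le _ _).trans ?_
    simp [hGn]
  have h2 : ‖∑ y ∈ Finset.range q, G (R + y)‖ ≤ q := by
    refine (norm_sum_le _ _).trans ?_
    simp [hGn]
  have h3 : ‖∑ y ∈ Finset.range R, (G (q + y) - ee (q * θ) * G y)‖ ≤
      R * (2 * Real.pi * (k * |β| * (2 * R : ℝ) ^ (k - 1)) * q) := by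
    refine (norm_sum_le _ _).trans ?_
    refine (Finset.sum_le_card_nsmul _ _ _ hD).trans (le_of_eq ?_)
    rw [Finset.card_range, nsmul_eq_mul]
  calc ‖_ - _ + _‖ ≤ ‖_ - _‖ + ‖_‖ := norm_add_le _ _
    _ ≤ (q + q) + R * (2 * Real.pi * (k * |β| * (2 * R : ℝ) ^ (k - 1)) * q) := by
        apply add_le_add _ h3
        exact (norm_sub_le _ _).trans (add_le_add h1 h2)
    _ = _ := by ring

lemma integral_eq (k R : ℕ) (B θ : ℝ) (hR : 1 ≤ R) :
    ∫ u in (0 : ℝ)..(R : ℝ), ph k (B / (R : ℝ) ^ k) θ u = R * VV k B (R * θ) := by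
  have hR0 : (R : ℝ) ≠ 0 := by positivity
  have h := intervalIntegral.integral_comp_mul_left (a := 0) (b := 1)
    (fun u => ph k (B / (R : ℝ) ^ k) θ u) hR0
  rw [mul_zero, mul_one] at h
  have h2 : ∫ x in (0 : ℝ)..1, ph k (B / (R : ℝ) ^ k) θ (R * x) = VV k B (R * θ) := by
    unfold VV
    apply intervalIntegral.integral_congr
    intro x _
    simp only
    unfold ph
    congr 1
    rw [mul_pow]
    field_simp
  rw [h2] at h
  rw [h]
  rw [Complex.real_smul, Complex.ofReal_inv, Complex.ofReal_natCast]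
  have : (R : ℂ) ≠ 0 := by exact_mod_cast hR0
  field_simp

theorem thm : G_V2 → G_RS := by
  intro hV2 k hk
  obtain ⟨C₀, hC₀⟩ := hV2 k (by omega)
  have hC₀' : 0 ≤ C₀ := by
    have := (hC₀ 0 0).1
    have h2 := norm_nonneg (VV k 0 0)
    norm_num at this
    linarith
  refine ⟨2 * Real.pi * (k + 1) + 2 + 2 * C₀ + (2 + 2 * Real.pi * (k * 2 ^ (k - 1))), ?_⟩
  intro R q a b B θ hR hq hqR hB hθ
  have hR1 : (1 : ℝ) ≤ R := by exact_mod_cast hR
  have hR0 : (0 : ℝ) < R := by linarith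
  have hq1 : (1 : ℝ) ≤ q := by exact_mod_cast hq
  have hq0 : (0 : ℝ) < q := by linarith
  set ρ : ℝ := (R : ℝ) ^ (1 / 16 : ℝ) with hρ
  have hρ1 : 1 ≤ ρ := Real.one_le_rpow hR1 (by norm_num)
  have hρ0 : 0 < ρ := by linarith
  have hRρ : (R : ℝ) = ρ ^ 16 := by
    rw [hρ, ← Real.rpow_natCast, ← Real.rpow_mul hR0.le]
    norm_num
  have hR4 : (R : ℝ) ^ (-(1 / 4) : ℝ) = (ρ ^ 4)⁻¹ := by
    rw [hρ, ← Real.rpow_natCast, ← Real.rpow_mul hR0.le, ← Real.rpow_neg hR0.le]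
    norm_num
  have hqRn : q ≤ R := by
    have : (q : ℝ) ≤ R := by
      rw [hRρ]
      calc (q : ℝ) ≤ ρ := hqR
        _ = ρ ^ 1 := (pow_one _).symm
        _ ≤ ρ ^ 16 := pow_le_pow_right₀ hρ1 (by norm_num)
    exact_mod_cast this
  rw [fS_eq, hR4]
  set S := ∑ y ∈ Finset.range R, ww k a q b y * ph k (B / (R : ℝ) ^ k) θ (y : ℝ) with hS
  have hβ : |B / (R : ℝ) ^ k| * (R : ℝ) ^ (k - 1) = |B| / R := by
    rw [abs_div, abs_of_pos (pow_pos hR0 k)]
    obtain ⟨j, rfl⟩ : ∃ j, k = j + 1 := ⟨k - 1, by omega⟩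
    rw [Nat.add_sub_cancel, pow_succ]
    field_simp
  have hpi : 0 < Real.pi := Real.pi_pos
  have hB0 : 0 ≤ |B| := abs_nonneg B
  have hk0 : (0 : ℝ) ≤ k := by positivity
  by_cases hΘ : |R * θ| ≤ ρ ^ 8
  · -- case 1
    have h1 := case1 k R q a b hq (B / (R : ℝ) ^ k) θ
    rw [integral_eq k R B θ hR, ← hS] at h1
    have h2 : (R : ℂ)⁻¹ * S - GG k a q b * VV k B (R * θ) =
        (R : ℂ)⁻¹ * (S - GG k a q b * (R * VV k B (R * θ))) := by
      have : (R : ℂ) ≠ 0 := by exact_mod_cast hR0.ne'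
      field_simp
    rw [h2, norm_mul, norm_inv, Complex.norm_natCast, inv_mul_le_iff₀ hR0]
    refine h1.trans ?_
    have h3 : R * (q * (2 * Real.pi * (k * |B / (R : ℝ) ^ k| * (R : ℝ) ^ (k - 1) + |θ|))) =
        q * (2 * Real.pi * (k * |B| + |R * θ|)) := by
      rw [mul_assoc (k : ℝ), hβ, abs_mul, abs_of_pos hR0]
      field_simp
    rw [h3]
    have h4 : (q : ℝ) * (2 * Real.pi * (k * |B| + |R * θ|)) + 2 * q ≤
        ρ * ((2 * Real.pi * (k + 1) + 2) * ρ ^ 8) := by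
      have h5 : |B| ≤ ρ ^ 8 := hB.trans (by
        calc ρ = ρ ^ 1 := (pow_one _).symm
          _ ≤ ρ ^ 8 := pow_le_pow_right₀ hρ1 (by norm_num))
      have h6 : (1 : ℝ) ≤ ρ ^ 8 := one_le_pow₀ hρ1
      have h7 : 2 * Real.pi * (k * |B| + |R * θ|) + 2 ≤ (2 * Real.pi * (k + 1) + 2) * ρ ^ 8 := by
        have h8 : k * |B| + |R * θ| ≤ (k + 1) * ρ ^ 8 := by
          have := mul_le_mul_of_nonneg_left h5 hk0
          linarith
        have h9 := mul_le_mul_of_nonneg_left h8 (show (0 : ℝ) ≤ 2 * Real.pi by positivity)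
        linarith
      calc (q : ℝ) * (2 * Real.pi * (k * |B| + |R * θ|)) + 2 * q =
          q * (2 * Real.pi * (k * |B| + |R * θ|) + 2) := by ring
        _ ≤ ρ * ((2 * Real.pi * (k + 1) + 2) * ρ ^ 8) :=
            mul_le_mul hqR h7 (by positivity) hρ0.le
    refine h4.trans ?_
    have h10 : ρ * ((2 * Real.pi * (k + 1) + 2) * ρ ^ 8) ≤
        (2 * Real.pi * (k + 1) + 2) * (R * (ρ ^ 4)⁻¹) := by
      have h11 : ρ * ρ ^ 8 ≤ R * (ρ ^ 4)⁻¹ := by
        rw [hRρ, ← div_eq_mul_inv, le_div_iff₀ (by positivity)]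
        calc ρ * ρ ^ 8 * ρ ^ 4 = ρ ^ 13 := by ring
          _ ≤ ρ ^ 16 := pow_le_pow_right₀ hρ1 (by norm_num)
      have h12 : (0 : ℝ) ≤ 2 * Real.pi * (k + 1) + 2 := by positivity
      calc ρ * ((2 * Real.pi * (k + 1) + 2) * ρ ^ 8) =
          (2 * Real.pi * (k + 1) + 2) * (ρ * ρ ^ 8) := by ring
        _ ≤ _ := mul_le_mul_of_nonneg_left h11 h12
    refine h10.trans ?_
    have h13 : (0 : ℝ) ≤ R * (ρ ^ 4)⁻¹ := by positivity
    have h14 : (0 : ℝ) ≤ 2 * C₀ + (2 + 2 * Real.pi * (k * 2 ^ (k - 1))) := by positivity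
    calc (2 * Real.pi * (k + 1) + 2) * (R * (ρ ^ 4)⁻¹) ≤
        (2 * Real.pi * (k + 1) + 2) * (R * (ρ ^ 4)⁻¹) +
          (2 * C₀ + (2 + 2 * Real.pi * (k * 2 ^ (k - 1)))) * (R * (ρ ^ 4)⁻¹) :=
          le_add_of_nonneg_right (mul_nonneg h14 h13)
      _ = _ := by ring
  · -- case 2
    rw [not_le] at hΘ
    have hΘ0 : 0 < |R * θ| := lt_of_le_of_lt (by positivity) hΘ
    have hθ0 : 0 < |θ| := by
      rw [abs_mul, abs_of_pos hR0] at hΘ0
      exact (mul_pos_iff_of_pos_left hR0).1 hΘ0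
    have h1 := case2 k R q a b hq hqRn (B / (R : ℝ) ^ k) θ
    rw [← hS] at h1
    have h2 : 4 * (q * |θ|) ≤ ‖1 - ee (q * θ)‖ := by
      have h3 : |q * θ| ≤ 1 / 2 := by
        rw [abs_mul, abs_of_pos hq0]
        calc (q : ℝ) * |θ| ≤ q * (1 / (2 * q)) := mul_le_mul_of_nonneg_left hθ hq0.le
          _ = 1 / 2 := by field_simp
      have h4 := ee_sub_one_ge (q * θ) h3
      rwa [abs_mul, abs_of_pos hq0] at h4
    have h5 : 4 * (q * |θ|) * ‖S‖ ≤
        2 * q + R * (2 * Real.pi * (k * |B / (R : ℝ) ^ k| * (2 * R : ℝ) ^ (k - 1)) * q) :=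
      (mul_le_mul_of_nonneg_right h2 (norm_nonneg _)).trans h1
    have h6 : R * (2 * Real.pi * (k * |B / (R : ℝ) ^ k| * (2 * R : ℝ) ^ (k - 1)) * q) =
        q * (2 * Real.pi * (k * 2 ^ (k - 1)) * |B|) := by
      rw [mul_pow]
      have : k * |B / (R : ℝ) ^ k| * (2 ^ (k - 1) * (R : ℝ) ^ (k - 1)) =
          k * 2 ^ (k - 1) * (|B / (R : ℝ) ^ k| * (R : ℝ) ^ (k - 1)) := by ring
      rw [this, hβ]
      field_simp
    rw [h6] at h5
    have h7 : 4 * |θ| * ‖S‖ ≤ 2 + 2 * Real.pi * (k * 2 ^ (k - 1)) * |B| := by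
      have h8 : q * (4 * |θ| * ‖S‖) ≤ q * (2 + 2 * Real.pi * (k * 2 ^ (k - 1)) * |B|) := by
        calc q * (4 * |θ| * ‖S‖) = 4 * (q * |θ|) * ‖S‖ := by ring
          _ ≤ 2 * q + q * (2 * Real.pi * (k * 2 ^ (k - 1)) * |B|) := h5
          _ = _ := by ring
      exact le_of_mul_le_mul_left h8 hq0
    have h8 : ‖(R : ℂ)⁻¹ * S‖ ≤ (2 + 2 * Real.pi * (k * 2 ^ (k - 1))) * (ρ ^ 4)⁻¹ := by
      rw [norm_mul, norm_inv, Complex.norm_natCast]
      have h9 : 4 * |R * θ| * ((R : ℝ)⁻¹ * ‖S‖) ≤ 2 + 2 * Real.pi * (k * 2 ^ (k - 1)) * |B| := by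
        rw [abs_mul, abs_of_pos hR0]
        calc 4 * (R * |θ|) * ((R : ℝ)⁻¹ * ‖S‖) = 4 * |θ| * ‖S‖ := by field_simp
          _ ≤ _ := h7
      have h10 : 2 + 2 * Real.pi * (k * 2 ^ (k - 1)) * |B| ≤
          (2 + 2 * Real.pi * (k * 2 ^ (k - 1))) * ρ := by
        have h11 : (0 : ℝ) ≤ 2 * Real.pi * (k * 2 ^ (k - 1)) := by positivity
        have h12 := mul_le_mul_of_nonneg_left hB h11
        nlinarith
      set X := (R : ℝ)⁻¹ * ‖S‖ with hX
      have hX0 : 0 ≤ X := by positivity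
      have h13 : ρ ^ 8 * X ≤ (2 + 2 * Real.pi * (k * 2 ^ (k - 1))) * ρ := by
        have h14 : ρ ^ 8 * X ≤ 4 * |R * θ| * X := by
          apply mul_le_mul_of_nonneg_right _ hX0
          linarith
        linarith
      have h15 : (0 : ℝ) ≤ 2 + 2 * Real.pi * (k * 2 ^ (k - 1)) := by positivity
      rw [← div_eq_mul_inv, le_div_iff₀ (by positivity)]
      have h16 : ρ ^ 5 * X ≤ (2 + 2 * Real.pi * (k * 2 ^ (k - 1))) := by
        have h17 : ρ ^ 7 * X ≤ 2 + 2 * Real.pi * (k * 2 ^ (k - 1)) := by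
          have : ρ * (ρ ^ 7 * X) ≤ ρ * (2 + 2 * Real.pi * (k * 2 ^ (k - 1))) := by
            calc ρ * (ρ ^ 7 * X) = ρ ^ 8 * X := by ring
              _ ≤ _ := h13
              _ = _ := by ring
          exact le_of_mul_le_mul_left this hρ0
        refine le_trans (mul_le_mul_of_nonneg_right ?_ hX0) h17
        exact pow_le_pow_right₀ hρ1 (by norm_num)
      calc X * ρ ^ 4 ≤ X * ρ ^ 5 := mul_le_mul_of_nonneg_left
            (pow_le_pow_right₀ hρ1 (by norm_num)) hX0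
        _ = ρ ^ 5 * X := by ring
        _ ≤ _ := h16
    have h20 : ‖GG k a q b * VV k B (R * θ)‖ ≤ 2 * C₀ * (ρ ^ 4)⁻¹ := by
      rw [norm_mul]
      have h21 := (hC₀ B (R * θ)).1
      have h22 : ‖GG k a q b‖ * ‖VV k B (R * θ)‖ ≤ 1 * (C₀ * ((1 + |B|) / (1 + |R * θ|))) :=
        mul_le_mul (norm_GG k a q b hq) h21 (norm_nonneg _) zero_le_one
      refine h22.trans ?_
      rw [one_mul, mul_comm (2 : ℝ) C₀, mul_assoc]
      apply mul_le_mul_of_nonneg_left _ hC₀'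
      rw [← div_eq_mul_inv, div_le_div_iff₀ (by positivity) (by positivity)]
      have h23 : (1 + |B|) ≤ 2 * ρ := by linarith
      have h24 : ρ ^ 4 * ρ ≤ ρ ^ 8 := by
        calc ρ ^ 4 * ρ = ρ ^ 5 := by ring
          _ ≤ ρ ^ 8 := pow_le_pow_right₀ hρ1 (by norm_num)
      have h25 : (1 + |B|) * ρ ^ 4 ≤ 2 * ρ * ρ ^ 4 :=
        mul_le_mul_of_nonneg_right h23 (by positivity)
      nlinarith
    calc ‖(R : ℂ)⁻¹ * S - GG k a q b * VV k B (R * θ)‖ ≤
        ‖(R : ℂ)⁻¹ * S‖ + ‖GG k a q b * VV k B (R * θ)‖ := norm_sub_le _ _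
      _ ≤ (2 + 2 * Real.pi * (k * 2 ^ (k - 1))) * (ρ ^ 4)⁻¹ + 2 * C₀ * (ρ ^ 4)⁻¹ :=
          add_le_add h8 h20
      _ ≤ _ := by
          have h26 : 0 ≤ (2 * Real.pi * (k + 1) + 2) * (ρ ^ 4)⁻¹ := by positivity
          linarith [h26]

end Pool.Agent.Helper42.KS.PkRS
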