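import Pool.Agent.Helper27.KS.GoalsF
import Pool.Agent.Helper22.KS.TRF

/-! # KS, packet TRG: transfer to types, with the mean deviations -/

set_option autoImplicit false

namespace Pool.Agent.Helper15.KS

open Finset
open Pool.Agent.Helper75.KS Pool.Agent.Helper27.KS
open Pool.Agent.Helper89.GP (LX po Ex Pr hh mem_LX)

theorem sum_LE {α : Type} [Fintype α] [PartialOrder α] (e : α ≃ Fin (Fintype.card α))
    (R : Fin (Fintype.card α) → Fin (Fintype.card α) → Prop) (hR : ∀ a b, R (e a) (e b) ↔ a < b)
    (F : Equiv.Perm (Fin (Fintype.card α)) → ℝ) :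
    ∑ f ∈ Pool.Agent.Helper27.KS.LE α, F (e.symm.trans f) = ∑ σ ∈ LX R, F σ := by
  classical
  refine Finset.sum_nbij' (fun f => e.symm.trans f) (fun σ => e.trans σ) ?_ ?_ ?_ ?_ ?_
  · intro f hf
    rw [Pool.Agent.Helper27.KS.LE, Finset.mem_filter] at hf
    rw [mem_LX]
    intro p q hpq
    obtain ⟨a, rfl⟩ := e.surjective p
    obtain ⟨b, rfl⟩ := e.surjective q
    simp only [Equiv.trans_apply, Equiv.symm_apply_apply]
    exact hf.2 ((hR a b).1 hpq)
  · intro σ hσ
    rw [mem_LX] at hσ
    rw [Pool.Agent.Helper27.KS.LE, Finset.mem_filter]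
    exact ⟨Finset.mem_univ _, fun a b hab => hσ _ _ ((hR a b).2 hab)⟩
  · intro f _
    ext a
    simp
  · intro σ _
    ext a
    simp
  · intro f _
    rfl

theorem card_LE {α : Type} [Fintype α] [PartialOrder α] (e : α ≃ Fin (Fintype.card α))
    (R : Fin (Fintype.card α) → Fin (Fintype.card α) → Prop) (hR : ∀ a b, R (e a) (e b) ↔ a < b) :
    ((Pool.Agent.Helper27.KS.LE α).card : ℝ) = (LX R).card := by
  have h := sum_LE e R hR (fun _ => 1)
  simpa using h

theorem mdev_eq {α : Type} [Fintype α] [PartialOrder α] (e : α ≃ Fin (Fintype.card α))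
    (R : Fin (Fintype.card α) → Fin (Fintype.card α) → Prop) (hR : ∀ a b, R (e a) (e b) ↔ a < b)
    (x : α) : mdev x = dev R (e x) := by
  have hpo : ∀ f : α ≃ Fin (Fintype.card α), po (e.symm.trans f) (e x) = (f x : ℕ) := by
    intro f
    simp [po]
  have h1 : mpos x = hh R (e x) := by
    rw [mpos, hh, Ex, card_LE e R hR, ← sum_LE e R hR]
    simp only [hpo]
  rw [mdev, dev, Ex, card_LE e R hR, ← sum_LE e R hR, h1]
  simp only [hpo]

/-- TRG. -/
theorem trg : TrgStmt := by
  intro α _ _
  have hR : ∀ a b : α, ((Fintype.equivFin α).symm (Fintype.equivFin α a) <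
      (Fintype.equivFin α).symm (Fintype.equivFin α b)) ↔ a < b := by
    intro a b
    simp only [Equiv.symm_apply_apply]
  refine ⟨Fintype.equivFin α, fun p q => (Fintype.equivFin α).symm p < (Fintype.equivFin α).symm q,
    ⟨fun a b c h1 h2 => lt_trans h1 h2, fun a h => lt_irrefl _ h⟩, hR, ?_, ?_, ?_, ?_⟩
  · intro x
    exact mdev_eq (Fintype.equivFin α) _ hR x
  · have h := Pool.Agent.Helper22.KS.trf_key (Fintype.equivFin α)
      (fun p q => (Fintype.equivFin α).symm p < (Fintype.equivFin α).symm q) hR (fun _ => True)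
    simpa using h
  · intro u v
    have h := Pool.Agent.Helper22.KS.trf_key (Fintype.equivFin α)
      (fun p q => (Fintype.equivFin α).symm p < (Fintype.equivFin α).symm q) hR
      (fun σ => σ (Fintype.equivFin α u) < σ (Fintype.equivFin α v))
    simpa using h
  · intro u v w z
    have h := Pool.Agent.Helper22.KS.trf_key (Fintype.equivFin α)
      (fun p q => (Fintype.equivFin α).symm p < (Fintype.equivFin α).symm q) hR
      (fun σ => σ (Fintype.equivFin α u) < σ (Fintype.equivFin α v) ∧
        σ (Fintype.equivFin α w) < σ (Fintype.equivFin α z))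
    simpa using h

end Pool.Agent.Helper15.KS
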